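import Mathlib
import Pool.Agent.W95.BK.Stm

/-! ITER and FIBC -/

set_option autoImplicit false

open Polynomial

namespace Pool.Agent.W407.BK

open Pool.Agent.W95.BK

universe u

section
variable {K : Type u} [Field K]

lemma hom_C_mul (N : ℕ) (c : K) (h u v : K[X]) : hom N (C c * h) u v = C c * hom N h u v := by
  unfold hom
  rw [Finset.mul_sum]
  refine Finset.sum_congr rfl fun i _ => ?_
  rw [coeff_C_mul, C_mul]
  ring

lemma hom_zero_one (u v : K[X]) : hom 0 (1 : K[X]) u v = 1 := by
  simp [hom]

lemma hom_pow {m : ℕ} {A : K[X]} (hA : A.natDegree ≤ m) (u v : K[X]) (i : ℕ) :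
    hom (i * m) (A ^ i) u v = hom m A u v ^ i := by
  induction i with
  | zero => rw [zero_mul, pow_zero, pow_zero]; exact hom_zero_one u v
  | succ i ih =>
    rw [add_mul, one_mul, pow_succ, pow_succ,
      hom_mul (natDegree_pow_le_of_le i hA) hA, ih]

lemma hom_assoc {N m : ℕ} (P : K[X]) {A B : K[X]} (hA : A.natDegree ≤ m) (hB : B.natDegree ≤ m)
    (u v : K[X]) : hom (N * m) (hom N P A B) u v = hom N P (hom m A u v) (hom m B u v) := by
  conv_lhs =>
    arg 2
    unfold hom
  rw [hom_sum]
  unfold hom
  refine Finset.sum_congr rfl fun i hi => ?_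
  have hi' : i ≤ N := by have := Finset.mem_range.1 hi; omega
  have e : N * m = i * m + (N - i) * m := by rw [← add_mul]; congr 1; omega
  change hom (N * m) (C (P.coeff i) * A ^ i * B ^ (N - i)) u v = C (P.coeff i) * hom m A u v ^ i *
    hom m B u v ^ (N - i)
  rw [mul_assoc, hom_C_mul, e, hom_mul (natDegree_pow_le_of_le i hA)
    (natDegree_pow_le_of_le (N - i) hB), hom_pow hA, hom_pow hB, mul_assoc]

lemma hom_X_one {N : ℕ} {h : K[X]} (hh : h.natDegree ≤ N) : hom N h X 1 = h := by
  conv_rhs => rw [h.as_sum_range' (N + 1) (by omega)]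
  unfold hom
  refine Finset.sum_congr rfl fun i _ => ?_
  rw [one_pow, mul_one, C_mul_X_pow_eq_monomial]

lemma rext {f g : RMap K} (h1 : f.P = g.P) (h2 : f.Q = g.Q) (h3 : f.d = g.d) : f = g := by
  cases f
  cases g
  simp only at h1 h2 h3
  subst h1 h2 h3
  rfl

lemma degP (f : RMap K) : f.P.natDegree ≤ f.d := by
  have := f.deg_eq
  exact this ▸ le_max_left _ _

lemma degQ (f : RMap K) : f.Q.natDegree ≤ f.d := by
  have := f.deg_eq
  exact this ▸ le_max_right _ _

variable [IsAlgClosed K]

lemma comp_id (R : RMap K) : R.comp (RMap.id K) = R :=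
  rext (hom_X_one (degP R)) (hom_X_one (degQ R)) (Nat.mul_one _)

lemma id_comp (g : RMap K) : (RMap.id K).comp g = g := by
  refine rext ?_ ?_ (Nat.one_mul _)
  · change hom 1 X g.P g.Q = g.P
    simp [hom, Finset.sum_range_succ, coeff_X]
  · change hom 1 1 g.P g.Q = g.Q
    simp [hom, Finset.sum_range_succ, coeff_one]

lemma comp_assoc (f g h : RMap K) : (f.comp g).comp h = f.comp (g.comp h) :=
  rext (hom_assoc _ (degP g) (degQ g) _ _) (hom_assoc _ (degP g) (degQ g) _ _) (Nat.mul_assoc _ _ _)

lemma iter_add (R : RMap K) (n m : ℕ) : R.iter (n + m) = (R.iter n).comp (R.iter m) := by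
  induction n with
  | zero => rw [Nat.zero_add]; exact (id_comp _).symm
  | succ n ih =>
    rw [Nat.succ_add]
    change R.comp (R.iter (n + m)) = (R.comp (R.iter n)).comp (R.iter m)
    rw [ih, comp_assoc]

lemma iter_one (R : RMap K) : R.iter 1 = R := comp_id R

end

theorem iter : S_ITER.{u} := by
  intro K _ _ R
  refine ⟨?_, iter_add R, ?_, iter_one R⟩
  · intro n
    induction n with
    | zero => rfl
    | succ n ih =>
      change R.d * (R.iter n).d = R.d ^ (n + 1)
      rw [ih, pow_succ']
  · intro n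
    have h1 : R.comp (R.iter n) = R.iter (n + 1) := rfl
    rw [h1, iter_add, iter_one]

section
variable {K : Type u} [Field K]

lemma sub_ne (g : RMap K) (z : K) : g.P - C z * g.Q ≠ 0 := by
  intro h
  have hP : g.P = C z * g.Q := sub_eq_zero.1 h
  have hu : IsUnit g.Q := by
    have hc := g.cop
    rw [hP] at hc
    exact isCoprime_self.1 (hc.of_mul_left_right)
  have hQ0 : g.Q.natDegree = 0 := natDegree_eq_zero_of_isUnit hu
  have hP0 : g.P.natDegree = 0 := by
    rw [hP]
    exact Nat.le_zero.1 ((natDegree_C_mul_le _ _).trans hQ0.le)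
  have := g.deg_eq
  rw [hQ0, hP0] at this
  have := g.pos
  simp at *
  omega

lemma sub_deg (g : RMap K) (z : K) : (g.P - C z * g.Q).natDegree ≤ g.d :=
  (natDegree_sub_le _ _).trans (max_le (degP g) ((natDegree_C_mul_le _ _).trans (degQ g)))

lemma hom_prod (s : Multiset K) (A B : K[X]) :
    hom s.card (s.map (fun z => X - C z)).prod A B = (s.map (fun z => A - C z * B)).prod := by
  induction s using Multiset.induction_on with
  | empty => simpa using hom_zero_one A B
  | cons z s ih =>
    rw [Multiset.map_cons, Multiset.prod_cons, Multiset.map_cons, Multiset.prod_cons,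
      Multiset.card_cons, add_comm s.card 1, hom_mul (natDegree_X_sub_C z).le ?_, ih]
    · congr 1
      simp [hom, Finset.sum_range_succ, coeff_X]
      ring
    · exact (natDegree_multiset_prod_X_sub_C_eq_card s).le

end

lemma fib_bind {K : Type u} [NontriviallyNormedField K] [IsUltrametricDist K]
    (g : RMap K) (s : Multiset K) :
    (s.map (fun z => g.P - C z * g.Q)).prod ≠ 0 ∧
    (s.map (fun z => g.P - C z * g.Q)).prod.natDegree ≤ s.card * g.d ∧
    ((s.map (fun z => g.P - C z * g.Q)).prod.roots.map (fun w => ((cl w : BA K) : P1B K))) +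
      Multiset.replicate (s.card * g.d - (s.map (fun z => g.P - C z * g.Q)).prod.natDegree)
        OnePoint.infty = s.bind (fun z => fib g z) := by
  induction s using Multiset.induction_on with
  | empty => simp
  | cons z s ih =>
    obtain ⟨h1, h2, h3⟩ := ih
    have h0 := sub_ne g z
    have hd := sub_deg g z
    rw [Multiset.map_cons, Multiset.prod_cons, Multiset.card_cons, Multiset.cons_bind, ← h3]
    refine ⟨mul_ne_zero h0 h1, ?_, ?_⟩
    · rw [natDegree_mul h0 h1, add_mul, one_mul, add_comm]
      exact Nat.add_le_add h2 hd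
    · rw [roots_mul (mul_ne_zero h0 h1), natDegree_mul h0 h1, Multiset.map_add]
      unfold fib
      set m := (s.map (fun z => g.P - C z * g.Q)).prod.natDegree
      have e : (s.card + 1) * g.d - ((g.P - C z * g.Q).natDegree + m) =
          (g.d - (g.P - C z * g.Q).natDegree) + (s.card * g.d - m) := by
        rw [add_mul, one_mul]
        omega
      rw [e, Multiset.replicate_add]
      abel

theorem fibc : S_FIBC.{u} := by
  intro K _ _ _ f g b hdeg
  set F := f.P - C b * f.Q with hF
  have hcard : F.roots.card = f.d := by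
    rw [← hdeg]
    exact (IsAlgClosed.splits F).natDegree_eq_card_roots.symm
  have hFe : F = C F.leadingCoeff * (F.roots.map (fun z => X - C z)).prod :=
    (IsAlgClosed.splits F).eq_prod_roots
  have hF0 : F ≠ 0 := sub_ne f b
  have hlc : F.leadingCoeff ≠ 0 := leadingCoeff_ne_zero.2 hF0
  have e1 : (f.comp g).P - C b * (f.comp g).Q = hom f.d F g.P g.Q := by
    change hom f.d f.P g.P g.Q - C b * hom f.d f.Q g.P g.Q = _
    have : F = f.P + C (-b) * f.Q := by rw [hF, C_neg]; ring
    rw [this, hom_add, hom_C_mul, C_neg]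
    ring
  have e2 : hom f.d F g.P g.Q =
      C F.leadingCoeff * (F.roots.map (fun z => g.P - C z * g.Q)).prod := by
    rw [← hom_prod, hcard, ← hom_C_mul, ← hFe]
  obtain ⟨h1, h2, h3⟩ := fib_bind g F.roots
  rw [← h3]
  unfold fib
  rw [e1, e2, roots_C_mul _ hlc, natDegree_C_mul hlc, hcard]
  rfl

end Pool.Agent.W407.BK
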